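import Pool.Agent.Lead.SR.LS

open Pool.Agent.H38.NP Pool.Agent.H38.ER

theorem Pool.Agent.Results.MP_24b35c_lc.Hard.result :
    ERHardOn (fun _ : ℕ × ℕ × List (ℕ × ℕ) => True) fun p =>
      ∃ x : Fin p.1 ⊕ Fin p.2.1 → EuclideanSpace ℝ (Fin 2), Function.Injective x ∧
        (∀ i j v, x v ∉ openSegment ℝ (x (.inl i)) (x (.inr j))) ∧
        ∀ i j, dist (x (.inl i)) (x (.inr j)) ≤ 1 ↔ (i.val, j.val) ∈ p.2.2 :=
  Pool.Agent.Lead.SR.ls_erh.hardOn
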